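import Pool.Agent.Helper79.KN.Asm

/-!
K4: several towers; definitions. `cl x` is the class (the tower) of the label `x`.
-/

set_option autoImplicit false

open Matrix H77MT Pool.Agent.Helper79.KN

namespace Pool.Agent.Helper61.K4

variable {Γ X T n K K₀ S : Type} [Group Γ] [DecidableEq X] [Fintype X] [Fintype n] [DecidableEq n] [Field K] [Field K₀]

/-- The representations are integral, and the residual representations of each class contain the isometries `A` of a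
nondegenerate symmetric or alternating form over the field with `r` elements with `(A - 1) ^ 2 = 0`, independently of the
other classes. -/
structure IsBigs (cl : X → S) (ρ : Rep Γ X n K) (O : ValuationSubring K) (r : ℕ) [Fact r.Prime]
    (j : ZMod r →+* IsLocalRing.ResidueField O) : Prop where
  int : ∀ x γ a b, (ρ x γ : Matrix n n K) a b ∈ O
  big : ∀ x, ∃ J : Matrix n n (ZMod r), IsUnit J.det ∧ (Jᵀ = J ∨ Jᵀ = -J) ∧
    ∀ A : Matrix n n (ZMod r), Aᵀ * J * A = J → (A - 1) * (A - 1) = 0 →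
      ∃ γ, Red O j (ρ x γ : Matrix n n K) A ∧ ∀ x', cl x' ≠ cl x → Red O j (ρ x' γ : Matrix n n K) 1

/-- The representations `ρ` and `ρ₀` are members of a compatible system. -/
structure IsCompats (ρ₀ : Rep Γ X n K₀) (ρ : Rep Γ X n K) : Prop where
  det : ∀ (x : X) (Δ : Subgroup Γ), Δ.FiniteIndex → ∀ W : Submodule K (n → K),
    (∀ γ ∈ Δ, ∀ w ∈ W, (ρ x γ : Matrix n n K) *ᵥ w ∈ W) →
    ∃ (Δ' : Subgroup Γ) (ψ : Δ' →* K₀ˣ), Δ' ≤ Δ ∧ Δ'.FiniteIndex ∧ ∀ γ : Δ', ∃ y : Fin (Module.finrank K W) → K₀,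
      (∀ i, (ρ₀ x γ : Matrix n n K₀).charpoly.IsRoot (y i)) ∧ (ψ γ : K₀) = ∏ i, y i
  frob : ∀ Δ : Subgroup Γ, Δ.FiniteIndex → ∃ γ ∈ Δ, ∃ u : X → n → K,
    (∀ x, (ρ x γ : Matrix n n K).charpoly = ∏ i, (Polynomial.X - Polynomial.C (u x i))) ∧
    ∀ m : X → n → ℤ, ∏ x, ∏ i, u x i ^ m x i = 1 →
      ∃ Δ' : Subgroup Γ, Δ' ≤ Δ ∧ Δ'.FiniteIndex ∧ ∀ γ' ∈ Δ', ∃ v : X → n → K₀,
        (∀ x, (ρ₀ x γ' : Matrix n n K₀).charpoly = ∏ i, (Polynomial.X - Polynomial.C (v x i))) ∧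
        ∏ x, ∏ i, v x i ^ m x i = 1

/-- No eigenspace has symmetric numbers for all `t`, and different eigenspaces of the same class have different numbers, up
to a shift and a symmetry. -/
structure IsSeps (cl : X → S) (h : T → X → ℤ → ℕ) : Prop where
  asym : ∀ x, ∃ t, ∀ w : ℤ, ∃ p, h t x p ≠ h t x (w - p)
  sep : ∀ x x', x ≠ x' → cl x = cl x' →
    ∃ t, ∀ w : ℤ, (∃ p, h t x p ≠ h t x' (w + p)) ∧ ∃ p, h t x p ≠ h t x' (w - p)

/-- The blocks `i` and `j` of the Lie algebra are isomorphic or dual, up to scalars. -/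
def IsLink (L : Submodule K (X → Matrix n n K)) (i j : X) : Prop :=
  ∃ T : Matrix n n K, IsUnit T.det ∧ ((∀ a ∈ L, ∃ c : K, a j * T - T * a i = c • T) ∨
    ∀ a ∈ L, ∃ c : K, (a j)ᵀ * T + T * a i = c • T)

end Pool.Agent.Helper61.K4
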