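import Pool.Agent.Helper61.K4.Gour
import Pool.Agent.Helper15.K4.D
import Pool.Agent.Helper35.K4.C
import Pool.Agent.Helper43.K4.A3
import Pool.Agent.Helper48.K4.NoLink
import Pool.Agent.Helper21.K4.Pair
import Pool.Agent.Helper79.KN.Asm2

/-!
K4: several towers, the criterion.
-/

set_option autoImplicit false

open Matrix H77MT Pool.Agent.Helper79.KN

namespace Pool.Agent.Helper61.K4

section full
variable {Γ X T n S : Type} [Group Γ] [DecidableEq X] [Fintype X] [Fintype n] [DecidableEq n] {K : Type} [Field K]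

/-- the Lie algebra of one eigenspace -/
theorem block_full [IsAlgClosed K] [CharZero K] {r : ℕ} [Fact r.Prime] (O : ValuationSubring K)
    (j : ZMod r →+* IsLocalRing.ResidueField O) {h : T → X → ℤ → ℕ} (ρ : Rep Γ X n K) (h4 : 4 < Fintype.card n)
    (hnr : Fintype.card n < r) (hS : ∀ x, ∃ t, ∀ w : ℤ, ∃ p, h t x p ≠ h t x (w - p)) (hB : IsBig ρ O r j) (hHT : HasHT ρ h) (Δ : Subgroup Γ)
    (hΔ : Δ.FiniteIndex) (hn : Δ.Normal) (x : X) (c : Matrix n n K) (hc : c.trace = 0) : ∃ a ∈ fam ρ Δ, a x = c := by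
  classical
  have : CharP (IsLocalRing.ResidueField O) r := charP_of_injective_ringHom j.injective r
  have hodd : Odd r := (Fact.out : r.Prime).odd_of_ne_two (by omega)
  have hcast : ∀ k : ℕ, 0 < k → k < r → ((k : ℕ) : IsLocalRing.ResidueField O) ≠ 0 := by
    intro k h1 h2 h3
    rw [CharP.cast_eq_zero_iff _ r] at h3
    have := Nat.le_of_dvd h1 h3
    omega
  have h2 : (2 : IsLocalRing.ResidueField O) ≠ 0 := by
    have := hcast 2 (by norm_num) (by omega)
    exact_mod_cast this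
  have hN : ((Fintype.card n : ℕ) : IsLocalRing.ResidueField O) ≠ 0 := hcast _ (by omega) hnr
  obtain ⟨J₀, hJ₀, hs₀, hbig⟩ := hB.big x
  set J : Matrix n n (IsLocalRing.ResidueField O) := J₀.map j with hJdef
  have hJ : IsUnit J.det := by
    rw [hJdef, show (J₀.map j).det = j J₀.det from (RingHom.map_det j J₀).symm]
    exact hJ₀.map j
  have hneg : (-J₀).map j = -J := by
    ext a b
    simp [hJdef]
  have hs : Jᵀ = J ∨ Jᵀ = -J := by
    rcases hs₀ with h5 | h5
    · left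
      rw [hJdef, ← transpose_map, h5]
    · right
      rw [← hneg, ← h5, hJdef, transpose_map]
  have hs' : Jᵀ = J ∧ ((Fintype.card n : ℕ) : IsLocalRing.ResidueField O) ≠ 2 ∨
      Jᵀ = -J ∧ ((Fintype.card n : ℕ) : IsLocalRing.ResidueField O) ≠ -2 := by
    rcases hs with h5 | h5
    · left
      refine ⟨h5, fun h6 => ?_⟩
      apply hcast (Fintype.card n - 2) (by omega) (by omega)
      rw [Nat.cast_sub (by omega), h6]
      norm_num
    · right
      refine ⟨h5, fun h6 => ?_⟩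
      have heven := even_of_alt h2 hJ h5
      have h7 : ((Fintype.card n + 2 : ℕ) : IsLocalRing.ResidueField O) = 0 := by
        push_cast
        rw [h6]
        norm_num
      rw [CharP.cast_eq_zero_iff _ r] at h7
      obtain ⟨q, hq⟩ := h7
      obtain ⟨k, hk⟩ := hodd
      obtain ⟨l, hl⟩ := heven
      have hq1 : q = 1 := by
        have h8 : r * q < r * 2 := by omega
        have h9 := Nat.lt_of_mul_lt_mul_left h8
        have : q ≠ 0 := by
          rintro rfl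
          omega
        omega
      subst hq1
      omega
  let P : Set (Matrix n n (IsLocalRing.ResidueField O)) :=
    {z | ∃ y : Matrix n n (ZMod r), yᵀ * J₀ + J₀ * y = 0 ∧ y * y = 0 ∧ z = y.map j}
  have hP : ∀ y ∈ P, yᵀ * J + J * y = 0 ∧ y * y = 0 := by
    rintro _ ⟨y, h5, h6, rfl⟩
    constructor
    · have := congrArg (fun M => M.map j) h5
      simpa [Matrix.map_add, Matrix.map_mul, Matrix.transpose_map, hJdef] using this
    · rw [← Matrix.map_mul, h6, Matrix.map_zero _ (map_zero j)]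
  have hspan : ∀ s : Matrix n n (IsLocalRing.ResidueField O), sᵀ * J + J * s = 0 →
      s ∈ Submodule.span (IsLocalRing.ResidueField O) P := fun s hs5 =>
    span_sq (by omega) j h4 hJ₀ hs₀ s hs5
  let L : Submodule K (Matrix n n K) := (fam ρ Δ).map (LinearMap.proj x)
  have hbr : ∀ a ∈ L, ∀ b ∈ L, a * b - b * a ∈ L := by
    rintro _ ⟨a, ha, rfl⟩ _ ⟨b, hb, rfl⟩
    exact ⟨a * b - b * a, fam_br ρ Δ a ha b hb, rfl⟩
  have hconj : ∀ (γ : Γ), ∀ a ∈ L, (ρ x γ : Matrix n n K) * a * (ρ x γ⁻¹ : Matrix n n K) ∈ L := by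
    rintro γ _ ⟨a, ha, rfl⟩
    exact ⟨_, fam_conj ρ hn γ ha, rfl⟩
  have hL : ∀ y ∈ P, ∃ g' h' : Matrix n n O, g' * h' = 1 ∧
      g'.map (IsLocalRing.residue O) = 1 + y ∧
      ∀ a ∈ L, g'.map (algebraMap O K) * a * h'.map (algebraMap O K) ∈ L ∧
        h'.map (algebraMap O K) * a * g'.map (algebraMap O K) ∈ L := by
    rintro _ ⟨y, h5, h6, rfl⟩
    obtain ⟨γ, M₀, hM1, hM2⟩ := hbig (1 + y) (isom_of_sq h5 h6).1 (isom_of_sq h5 h6).2
    let N₀ : Matrix n n O := Matrix.of fun a b => ⟨(ρ x γ⁻¹ : Matrix n n K) a b, hB.int x γ⁻¹ a b⟩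
    have hN₀ : (ρ x γ⁻¹ : Matrix n n K) = N₀.map (algebraMap O K) := by
      ext a b
      rfl
    refine ⟨M₀, N₀, ?_, ?_, ?_⟩
    · have hinj : Function.Injective (fun M : Matrix n n O => M.map (algebraMap O K)) :=
        Matrix.map_injective (IsFractionRing.injective O K)
      apply hinj
      show (M₀ * N₀).map (algebraMap O K) = (1 : Matrix n n O).map (algebraMap O K)
      rw [Matrix.map_mul, ← hM1, ← hN₀, Matrix.map_one _ (map_zero _) (map_one _), ← Units.val_mul, ← map_mul,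
        mul_inv_cancel, map_one, Units.val_one]
    · rw [hM2, Matrix.map_add _ (fun _ _ => map_add _ _ _), Matrix.map_one _ (map_zero j) (map_one j)]
    · intro a ha
      rw [← hM1, ← hN₀]
      refine ⟨hconj γ a ha, ?_⟩
      have := hconj γ⁻¹ a ha
      rwa [inv_inv] at this
  obtain ⟨t, ht⟩ := hS x
  obtain ⟨S', R, hR⟩ := hHT t
  have hcL : ∑ p ∈ S', (p : K) • R x p ∈ L := ⟨_, ht_fam hR Δ hΔ, rfl⟩
  have hns : ∃ c ∈ L, ∀ l : K, c ≠ l • (1 : Matrix n n K) := by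
    refine ⟨_, hcL, fun l hl => ?_⟩
    obtain ⟨w, hw⟩ := Pool.Agent.Helper79.KM.ht_scalar (hR.mul x) (hR.supp x) hl
    obtain ⟨p, hp⟩ := ht w
    apply hp
    rw [← hR.rank, ← hR.rank]
    exact hw p
  rcases lift_gen79 O h2 h4 hJ hs P hP hspan L hbr hL hns with h1 | ⟨h1, h7⟩
  · exact h1 c hc
  · exfalso
    obtain ⟨b, hb, hbL⟩ := Pool.Agent.Helper3.KN.casimir O h2 hN hJ hs' L hbr h1 h7
    obtain ⟨μ, hμ⟩ := hbL _ hcL
    obtain ⟨w, hw⟩ := Pool.Agent.Helper79.KM.ht_sim (hR.mul x) (hR.supp x) (hR.sum x) hb hμ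
    obtain ⟨p, hp⟩ := ht w
    apply hp
    rw [← hR.rank, ← hR.rank]
    exact hw p


omit [DecidableEq X] [Fintype X] in
theorem isBig_of {cl : X → S} {ρ : Rep Γ X n K} {O : ValuationSubring K} {r : ℕ} [Fact r.Prime]
    {j : ZMod r →+* IsLocalRing.ResidueField O} (H : IsBigs cl ρ O r j) : IsBig ρ O r j := by
  refine ⟨H.int, fun x => ?_⟩
  obtain ⟨J, h1, h2, h3⟩ := H.big x
  exact ⟨J, h1, h2, fun A h4 h5 => by
    obtain ⟨γ, h6, -⟩ := h3 A h4 h5
    exact ⟨γ, h6⟩⟩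

/-- different classes are not linked -/
theorem not_link_cl [CharZero K] {r : ℕ} [Fact r.Prime] (O : ValuationSubring K)
    (j : ZMod r →+* IsLocalRing.ResidueField O) {cl : X → S} {ρ : Rep Γ X n K} (h4 : 4 < Fintype.card n)
    (hnr : Fintype.card n < r) (hB : IsBigs cl ρ O r j) {Δ : Subgroup Γ} (hn : Δ.Normal) {x x' : X}
    (hb : ∀ c : Matrix n n K, c.trace = 0 → ∃ a ∈ fam ρ Δ, a x = c) (hne : cl x ≠ cl x') :
    ¬ IsLink (fam ρ Δ) x x' := by
  have : CharP (IsLocalRing.ResidueField O) r := charP_of_injective_ringHom j.injective r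
  have hcast : ∀ k : ℕ, 0 < k → k ≤ Fintype.card n → ((k : ℕ) : IsLocalRing.ResidueField O) ≠ 0 := by
    intro k h1 h2 h3
    rw [CharP.cast_eq_zero_iff _ r] at h3
    have := Nat.le_of_dvd h1 h3
    omega
  have h2 : (2 : IsLocalRing.ResidueField O) ≠ 0 := by
    have := hcast 2 (by norm_num) (by omega)
    exact_mod_cast this
  obtain ⟨J₀, hJ₀, hs₀, hbig⟩ := hB.big x
  obtain ⟨y, ⟨y₀, hy1, hy2, hy3⟩, z, ⟨z₀, hz1, hz2, hz3⟩, hyz⟩ := Pool.Agent.Helper21.K4.exists_pair h2 h4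
    (U := {z | ∃ y : Matrix n n (ZMod r), yᵀ * J₀ + J₀ * y = 0 ∧ y * y = 0 ∧ z = y.map j}) (Or.inr ⟨J₀.map j, by
      rw [show (J₀.map j).det = j J₀.det from (RingHom.map_det j J₀).symm]
      exact hJ₀.map j, by
      rcases hs₀ with h5 | h5
      · left
        rw [← transpose_map, h5]
      · right
        rw [← transpose_map, h5]
        ext a b
        simp, fun z hz => span_sq (by omega) j h4 hJ₀ hs₀ z hz⟩)
  have hsq : ∀ w₀ : Matrix n n (ZMod r), w₀ * w₀ = 0 → (w₀.map j) * (w₀.map j) = 0 := by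
    intro w₀ h
    rw [← Matrix.map_mul, h, Matrix.map_zero _ (map_zero j)]
  have hγ : ∀ w₀ : Matrix n n (ZMod r), w₀ᵀ * J₀ + J₀ * w₀ = 0 → w₀ * w₀ = 0 → ∃ (γ : Γ) (M M' : Matrix n n O),
      (ρ x γ : Matrix n n K) = M.map (algebraMap O K) ∧ M.map (IsLocalRing.residue O) = 1 + w₀.map j ∧
      (ρ x' γ : Matrix n n K) = M'.map (algebraMap O K) ∧ M'.map (IsLocalRing.residue O) = 1 := by
    intro w₀ h5 h6
    obtain ⟨γ, ⟨M, hM1, hM2⟩, h7⟩ := hbig (1 + w₀) (isom_of_sq h5 h6).1 (isom_of_sq h5 h6).2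
    obtain ⟨M', hM3, hM4⟩ := h7 x' (Ne.symm hne)
    refine ⟨γ, M, M', hM1, ?_, hM3, ?_⟩
    · rw [hM2, Matrix.map_add _ (fun _ _ => map_add _ _ _), Matrix.map_one _ (map_zero j) (map_one j)]
    · rw [hM4, Matrix.map_one _ (map_zero j) (map_one j)]
  refine Pool.Agent.Helper43.K4.not_link_resid O h4 hcast hn (fun γ a b => hB.int x' γ a b) hb
    (y := y) (z := z) ?_ ?_ hyz ?_
  · rw [hy3]
    exact hsq y₀ hy2
  · rw [hz3]
    exact hsq z₀ hz2
  · rintro w (rfl | rfl)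
    · rw [hy3]
      exact hγ y₀ hy1 hy2
    · rw [hz3]
      exact hγ z₀ hz1 hz2

/-- **The representation with the large residual image.** -/
theorem full_r [IsAlgClosed K] [CharZero K] {r : ℕ} [Fact r.Prime] (O : ValuationSubring K)
    (j : ZMod r →+* IsLocalRing.ResidueField O) {h : T → X → ℤ → ℕ} {cl : X → S} (ρ : Rep Γ X n K)
    (h4 : 4 < Fintype.card n) (hnr : Fintype.card n < r) (hS : IsSeps cl h) (hB : IsBigs cl ρ O r j)
    (hHT : HasHT ρ h) : IsFull ρ := by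
  classical
  intro Δ hΔ M hM
  have := hΔ
  have hfin : Δ.normalCore.FiniteIndex := inferInstance
  have hnorm : Δ.normalCore.Normal := inferInstance
  refine zcl_mono (img_mono ρ (Subgroup.normalCore_le Δ)) ?_
  have hb : ∀ (x : X) (c : Matrix n n K), c.trace = 0 → ∃ a ∈ fam ρ Δ.normalCore, a x = c := fun x c hc =>
    block_full O j ρ h4 hnr hS.asym (isBig_of hB) hHT Δ.normalCore hfin hnorm x c hc
  have hne : Nonempty n := Fintype.card_pos_iff.1 (by omega)
  refine full_of_LL ρ Δ.normalCore ?_ M hM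
  refine Pool.Agent.Helper15.K4.goursat_link (fam ρ Δ.normalCore) (fam_br ρ Δ.normalCore) hb fun x x' hxx => ?_
  by_cases hcl : cl x = cl x'
  · obtain ⟨t, ht⟩ := hS.sep x x' hxx hcl
    obtain ⟨S', R, hR⟩ := hHT t
    refine not_link_of_weights _ ⟨S', R x, R x', _, ht_fam hR Δ.normalCore hfin, hR.mul x, hR.mul x', hR.sum x, hR.sum x',
      hR.supp x, hR.supp x', rfl, rfl, fun w => ?_⟩
    simp only [hR.rank]
    exact ht w
  · exact not_link_cl O j h4 hnr hB hnorm (fun c hc => hb x c hc) hcl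

end full

section ell
variable {Γ X n : Type} [Group Γ] [DecidableEq X] [Fintype X] [Fintype n] [DecidableEq n] {K₀ K : Type} [Field K₀]
  [Field K]

theorem irr_l [CharZero K₀] {ρ₀ : Rep Γ X n K₀} {ρ : Rep Γ X n K} (hf : IsFull ρ₀) (hC : IsCompats ρ₀ ρ) (x : X)
    (Δ : Subgroup Γ) (hΔ : Δ.FiniteIndex) (W : Submodule K (n → K))
    (hW : ∀ γ ∈ Δ, ∀ w ∈ W, (ρ x γ : Matrix n n K) *ᵥ w ∈ W) : W = ⊥ ∨ W = ⊤ := by
  by_contra hcon
  push Not at hcon
  obtain ⟨Δ', ψ, hle, hfin, hψ⟩ := hC.det x Δ hΔ W hW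
  have h1 : 0 < Module.finrank K W := by
    rw [Nat.pos_iff_ne_zero]
    intro h0
    exact hcon.1 (Submodule.finrank_eq_zero.1 h0)
  have h2 : Module.finrank K W < Fintype.card n := by
    have := Submodule.finrank_lt hcon.2
    rwa [Module.finrank_fintype_fun_eq_card] at this
  exact Pool.Agent.Helper79.KM.no_char (ρ := ρ₀ x) ψ h1 h2
    (fun M hM => zcl_block ρ₀ Δ' (hf Δ' hfin (fun _ => M) fun _ => hM) x) hψ

/-- **The other members of the compatible system.** -/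
theorem full_l [CharZero K₀] [IsAlgClosed K₀] [CharZero K] [IsAlgClosed K] {ρ₀ : Rep Γ X n K₀} {ρ : Rep Γ X n K}
    (h4 : 4 < Fintype.card n) (hf : IsFull ρ₀) (hC : IsCompats ρ₀ ρ) : IsFull ρ := by
  classical
  intro Δ hΔ M hM
  have := hΔ
  have hfin : Δ.normalCore.FiniteIndex := inferInstance
  have hnorm : Δ.normalCore.Normal := inferInstance
  refine zcl_mono (img_mono ρ (Subgroup.normalCore_le Δ)) ?_
  obtain ⟨γ, hγ, u, hu, hrel⟩ := hC.frob Δ.normalCore hfin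
  have hind : ∀ (x : X) (m : n → ℤ), ∏ i, u x i ^ m i = 1 → ∀ i j, m i = m j := by
    intro x m hm
    obtain ⟨Δ', _, hfin', h1⟩ := hrel (fun x' => if x' = x then m else 0) (by
      rw [Finset.prod_eq_single x]
      · simpa using hm
      · intro x' _ hx'
        simp [hx']
      · intro h
        exact absurd (Finset.mem_univ x) h)
    refine Pool.Agent.Helper79.KM.no_rel (ρ := ρ₀ x) (Δ := Δ')
      (fun M hM => zcl_block ρ₀ Δ' (hf Δ' hfin' (fun _ => M) fun _ => hM) x) m fun γ' hγ' => ?_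
    obtain ⟨v, hv, hv1⟩ := h1 γ' hγ'
    refine ⟨v x, hv x, ?_⟩
    rw [Finset.prod_eq_single x] at hv1
    · simpa using hv1
    · intro x' _ hx'
      simp [hx']
    · intro h
      exact absurd (Finset.mem_univ x) h
  have hb : ∀ (x : X) (c : Matrix n n K), c.trace = 0 → ∃ a ∈ fam ρ Δ.normalCore, a x = c := by
    intro x c hc
    obtain ⟨M', h1, h2⟩ := Pool.Agent.Helper31.KN.full_l ρ Δ.normalCore hfin hγ u hu hind x
      (fun Δ' hΔ' W hW => irr_l hf hC x Δ' hΔ' W hW) c hc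
    exact ⟨M', h2, h1⟩
  refine full_of_LL ρ Δ.normalCore ?_ M hM
  refine Pool.Agent.Helper15.K4.goursat_link (fam ρ Δ.normalCore) (fam_br ρ Δ.normalCore) hb fun x x' hxx => ?_
  exact Pool.Agent.Helper48.K4.not_link_of_rel h4 hf hC fun hl γ u hu => by
    obtain ⟨m, h1, _, h2, h3⟩ := Pool.Agent.Helper35.K4.rel_of_link h4 hnorm hxx (fun c hc => hb x c hc) hl hu
    exact ⟨m, h1, h2, h3⟩

end ell

/-- **The criterion for several towers.** -/
theorem criterion {Γ X T n S K₀ K : Type} [Group Γ] [Fintype X] [DecidableEq X] [Fintype n] [DecidableEq n] [Field K₀]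
    [IsAlgClosed K₀] [CharZero K₀] [Field K] [IsAlgClosed K] [CharZero K] {r : ℕ} [Fact r.Prime]
    (O : ValuationSubring K₀) (j : ZMod r →+* IsLocalRing.ResidueField O) {h : T → X → ℤ → ℕ} {cl : X → S}
    {ρ₀ : Rep Γ X n K₀} (h4 : 4 < Fintype.card n) (hnr : Fintype.card n < r) (hS : IsSeps cl h)
    (hB : IsBigs cl ρ₀ O r j) (hHT : HasHT ρ₀ h) :
    IsFull ρ₀ ∧ ∀ ρ : Rep Γ X n K, IsCompats ρ₀ ρ → IsFull ρ := by
  have h1 : IsFull ρ₀ := full_r O j ρ₀ h4 hnr hS hB hHT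
  exact ⟨h1, fun ρ hC => full_l h4 h1 hC⟩

end Pool.Agent.Helper61.K4
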