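import Pool.Agent.Helper61.K4.Defs
import Pool.Agent.Helper15.KN.D

/-!
K4, block D: Goursat's lemma, with links as matrices.
-/

set_option autoImplicit false

open Matrix

namespace Pool.Agent.Helper61.K4

variable {X n K : Type} [DecidableEq X] [Fintype X] [Fintype n] [DecidableEq n] [Field K]

/-- the pairing of a vector space of rows with itself -/
noncomputable def dl (n K : Type) [Fintype n] [DecidableEq n] [Field K] : (n → K) ≃ₗ[K] Module.Dual K (n → K) :=
  (Pi.basisFun K n).toDualEquiv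

theorem dl_apply (v w : n → K) : dl n K v w = v ⬝ᵥ w := by
  show (Pi.basisFun K n).toDual v w = v ⬝ᵥ w
  have h1 : w = ∑ i, w i • (Pi.basisFun K n i) := by
    conv_lhs => rw [← (Pi.basisFun K n).sum_repr w]
    exact Finset.sum_congr rfl fun i _ => by rw [Pi.basisFun_repr]
  conv_lhs => rw [h1]
  rw [map_sum, dotProduct]
  refine Finset.sum_congr rfl fun i _ => ?_
  rw [map_smul, Module.Basis.toDual_apply_left, smul_eq_mul, mul_comm]
  simp

section E

theorem matrix_of_end {L : Submodule K (X → Matrix n n K)} {i j : X} (T : (n → K) ≃ₗ[K] (n → K))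
    (hT : ∀ a ∈ L, ∃ c : K, (toLinAlgEquiv' (a j)) ∘ₗ T.toLinearMap - T.toLinearMap ∘ₗ (toLinAlgEquiv' (a i)) =
      c • T.toLinearMap) : Pool.Agent.Helper61.K4.IsLink L i j := by
  have e : toLin' (LinearMap.toMatrix' T.toLinearMap) = T.toLinearMap := toLin'_toMatrix' _
  refine ⟨LinearMap.toMatrix' T.toLinearMap, ?_, Or.inl fun a ha => ?_⟩
  · rw [LinearMap.det_toMatrix']
    exact LinearEquiv.isUnit_det' T
  · obtain ⟨c, hc⟩ := hT a ha
    refine ⟨c, ?_⟩
    apply toLin'.injective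
    rw [map_sub, toLin'_mul, toLin'_mul, map_smul, e]
    exact hc

theorem matrix_of_dual {L : Submodule K (X → Matrix n n K)} {i j : X} (T : (n → K) ≃ₗ[K] Module.Dual K (n → K))
    (hT : ∀ a ∈ L, ∃ c : K, (toLinAlgEquiv' (a j)).dualMap ∘ₗ T.toLinearMap +
      T.toLinearMap ∘ₗ (toLinAlgEquiv' (a i)) = c • T.toLinearMap) : Pool.Agent.Helper61.K4.IsLink L i j := by
  let U : (n → K) ≃ₗ[K] (n → K) := T.trans (dl n K).symm
  have e : ∀ v, (LinearMap.toMatrix' U.toLinearMap) *ᵥ v = U v := fun v => by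
    rw [← toLin'_apply, toLin'_toMatrix']
    rfl
  have hU : ∀ v w, T v w = ((LinearMap.toMatrix' U.toLinearMap) *ᵥ v) ⬝ᵥ w := by
    intro v w
    rw [e, ← dl_apply]
    show T v w = dl n K ((dl n K).symm (T v)) w
    rw [LinearEquiv.apply_symm_apply]
  refine ⟨LinearMap.toMatrix' U.toLinearMap, ?_, Or.inr fun a ha => ?_⟩
  · rw [LinearMap.det_toMatrix']
    exact LinearEquiv.isUnit_det' U
  · obtain ⟨c, hc⟩ := hT a ha
    refine ⟨c, ?_⟩
    set M := LinearMap.toMatrix' U.toLinearMap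
    apply Matrix.ext_of_mulVec_single
    intro k
    set v : n → K := Pi.single k 1
    have h1 : ∀ w : n → K, (((a j)ᵀ * M + M * a i) *ᵥ v) ⬝ᵥ w = ((c • M) *ᵥ v) ⬝ᵥ w := by
      intro w
      have h2 := LinearMap.congr_fun (LinearMap.congr_fun hc v) w
      have h3 : T v (a j *ᵥ w) + T (a i *ᵥ v) w = c * T v w := h2
      rw [hU, hU, hU] at h3
      rw [add_mulVec, add_dotProduct, smul_mulVec, smul_dotProduct, smul_eq_mul, ← h3, ← mulVec_mulVec, ← mulVec_mulVec,
        mulVec_transpose, dotProduct_mulVec]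
    exact (dotProduct_eq _ _ h1)

end E

section D

variable [CharZero K]

/-- D2: different weights -/
theorem not_link_of_weights [Nonempty n] (L : Submodule K (X → Matrix n n K)) {x x' : X}
    (hsep : ∃ (P : Finset ℤ) (R R' : ℤ → Matrix n n K), ∃ a ∈ L,
      (∀ p q, R p * R q = if p = q then R p else 0) ∧ (∀ p q, R' p * R' q = if p = q then R' p else 0) ∧
      ∑ p ∈ P, R p = 1 ∧ ∑ p ∈ P, R' p = 1 ∧ (∀ p, p ∉ P → R p = 0) ∧ (∀ p, p ∉ P → R' p = 0) ∧
      a x = ∑ p ∈ P, (p : K) • R p ∧ a x' = ∑ p ∈ P, (p : K) • R' p ∧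
      ∀ w : ℤ, (∃ p, (R p).rank ≠ (R' (w + p)).rank) ∧ ∃ p, (R p).rank ≠ (R' (w - p)).rank) :
    ¬ IsLink L x x' := by
  obtain ⟨P, R, R', b, hb, h1, h1', h2, h2', h3, h3', h4, h4', hw⟩ := hsep
  obtain ⟨e1, e2⟩ := Pool.Agent.Helper15.KN.rank_eig h1 h2 h3 h4
  obtain ⟨e1', e2'⟩ := Pool.Agent.Helper15.KN.rank_eig h1' h2' h3' h4'
  obtain ⟨p₀, hp₀⟩ : ∃ p₀, (R p₀).rank ≠ 0 := by
    by_contra hcon
    push Not at hcon
    have h5 : ∀ p, R p = 0 := fun p => by
      have h7 : LinearMap.range (Matrix.toLinAlgEquiv' (R p)) = ⊥ := Submodule.finrank_eq_zero.1 (hcon p)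
      exact Matrix.toLinAlgEquiv'.injective ((LinearMap.range_eq_bot.1 h7).trans (map_zero _).symm)
    have h6 : (1 : Matrix n n K) = 0 := by
      rw [← h2]
      exact Finset.sum_eq_zero fun p _ => h5 p
    exact one_ne_zero h6
  rintro ⟨M, hM, hT⟩
  have hMM : M * M⁻¹ = 1 := Matrix.mul_nonsing_inv M hM
  have hMM' : M⁻¹ * M = 1 := Matrix.nonsing_inv_mul M hM
  obtain ⟨T, eT⟩ : ∃ T : (n → K) ≃ₗ[K] (n → K), T.toLinearMap = toLin' M := ⟨Matrix.toLin'OfInv hMM' hMM, rfl⟩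
  rcases hT with hT | hT
  · obtain ⟨c, hc⟩ := hT b hb
    have hc' : toLinAlgEquiv' (b x') ∘ₗ T.toLinearMap - T.toLinearMap ∘ₗ toLinAlgEquiv' (b x) = c • T.toLinearMap := by
      rw [eT]
      have := congrArg toLin' hc
      rw [map_sub, toLin'_mul, toLin'_mul, map_smul] at this
      exact this
    have h5 := Pool.Agent.Helper15.KN.finrank_iso T hc'
    obtain ⟨q₀, hq₀⟩ : ∃ q : ℤ, (p₀ : K) + c = q := by
      by_contra hcon
      push Not at hcon
      have h6 := h5 p₀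
      rw [e1 p₀] at h6
      rw [h6] at hp₀
      exact hp₀ (e2' _ hcon)
    obtain ⟨p, hp⟩ := (hw (q₀ - p₀)).1
    apply hp
    have h8 : (p : K) + c = ((q₀ - p₀ + p : ℤ) : K) := by
      push_cast
      rw [← hq₀]
      ring
    rw [← e1 p, ← e1' _, h5 p, h8]
  · obtain ⟨c, hc⟩ := hT b hb
    obtain ⟨U, hU⟩ : ∃ U : (n → K) ≃ₗ[K] Module.Dual K (n → K), ∀ v w, U v w = (M *ᵥ v) ⬝ᵥ w := by
      refine ⟨T.trans (dl n K), fun v w => ?_⟩
      have h7 : T v = M *ᵥ v := by
        have h8 := LinearMap.congr_fun eT v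
        rwa [toLin'_apply] at h8
      rw [LinearEquiv.trans_apply, dl_apply, h7]
    have hc' : (toLinAlgEquiv' (b x')).dualMap ∘ₗ U.toLinearMap + U.toLinearMap ∘ₗ toLinAlgEquiv' (b x) =
        c • U.toLinearMap := by
      refine LinearMap.ext fun v => LinearMap.ext fun w => ?_
      have h8 : (((toLinAlgEquiv' (b x')).dualMap ∘ₗ U.toLinearMap + U.toLinearMap ∘ₗ toLinAlgEquiv' (b x)) v) w =
          U v (toLinAlgEquiv' (b x') w) + U (toLinAlgEquiv' (b x) v) w := by
        rw [LinearMap.add_apply, LinearMap.add_apply, LinearMap.comp_apply, LinearMap.comp_apply,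
          LinearMap.dualMap_apply]
        rfl
      rw [h8, LinearMap.smul_apply, LinearMap.smul_apply, toLinAlgEquiv'_apply, toLinAlgEquiv'_apply, hU, hU,
        LinearEquiv.coe_coe, hU, smul_eq_mul]
      have h7 := congrArg (fun N : Matrix n n K => (N *ᵥ v) ⬝ᵥ w) hc
      simp only [add_mulVec, add_dotProduct, smul_mulVec, smul_dotProduct, smul_eq_mul, ← mulVec_mulVec,
        mulVec_transpose] at h7
      rw [← h7, dotProduct_mulVec]
    have h5 := Pool.Agent.Helper15.KN.finrank_iso_dual U hc'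
    obtain ⟨q₀, hq₀⟩ : ∃ q : ℤ, c - (p₀ : K) = q := by
      by_contra hcon
      push Not at hcon
      have h6 := h5 p₀
      rw [e1 p₀] at h6
      rw [h6] at hp₀
      exact hp₀ (e2' _ hcon)
    obtain ⟨p, hp⟩ := (hw (q₀ + p₀)).2
    apply hp
    have h8 : c - (p : K) = ((q₀ + p₀ - p : ℤ) : K) := by
      push_cast
      rw [← hq₀]
      ring
    rw [← e1 p, ← e1' _, h5 p, h8]

end D

end Pool.Agent.Helper61.K4
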