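import Pool.Agent.Helper61.K4.Defs
import Pool.Agent.Helper35.KN.Sep
import Pool.Agent.Helper98.KU.Any

/-!
K4: the numbers of several towers.
-/

set_option autoImplicit false

open Pool.Agent.Helper79.KN

namespace Pool.Agent.Helper61.K4

/-- The nontrivial characters of the group of the `r ^ e`-th roots of unity, up to inversion. -/
abbrev Cr (r e : ℕ) : Type := {u : ℕ // 0 < u ∧ 2 * u < r ^ e}

/-- the spaces of one tower are separated -/
theorem isSeps {m : ℕ} {S : Type} (a : S → Fin m → ℕ) (r e : ℕ) (hr : r.Prime) (he : 0 < e)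
    (hco : ∀ s k l, k ≠ l → Nat.Coprime (a s k) (a s l)) (ha : ∀ s k, 1 < a s k) (h2 : ∀ s, 2 < ∏ k, (a s k - 1))
    (hA : ∀ s, 2 * ∏ k, a s k < r) :
    IsSeps (X := S × Cr r e) (T := {t : ℕ // Nat.Coprime t r}) Prod.fst
      fun t x q => spec (a x.1) (r ^ e) (t.1 * x.2.1 % r ^ e) q := by
  constructor
  · rintro ⟨s, u⟩
    exact (isSep_spec m (a s) r e hr he (hco s) (ha s) (h2 s) (hA s)).asym u
  · rintro ⟨s, u⟩ ⟨s', u'⟩ hne (hs : s = s')
    subst hs
    exact (isSep_spec m (a s) r e hr he (hco s) (ha s) (h2 s) (hA s)).sep u u' fun h => hne (by rw [h])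

theorem tot_bound {m : ℕ} (a : Fin m → ℕ) (ha : ∀ k, 1 < a k) {b r e : ℕ} (hr : r.Prime) (he : 0 < e)
    (hA : ∏ k, a k < r) (h : b * ∑ k, (1 / a k : ℚ) < 1) :
    b * ∑ k, (1 / a k : ℚ) < (Nat.totient (r ^ e) : ℚ) / (r ^ e : ℕ) := by
  set A : ℕ := ∏ k, a k with hAdef
  have hA0 : 0 < A := Finset.prod_pos fun k _ => by have := ha k; omega
  have hAq : (0 : ℚ) < A := by exact_mod_cast hA0
  have hrq : (0 : ℚ) < r := by exact_mod_cast hr.pos
  let P : ℕ := ∑ k, A / a k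
  have hP : (P : ℚ) = A * ∑ k, (1 / a k : ℚ) := by
    simp only [P]
    rw [Nat.cast_sum, Finset.mul_sum]
    refine Finset.sum_congr rfl fun k _ => ?_
    have h1 : a k ∣ A := Finset.dvd_prod_of_mem a (Finset.mem_univ k)
    rw [Nat.cast_div h1 (by have := ha k; positivity)]
    ring
  have h1 : b * P < A := by
    have h2 : ((b * P : ℕ) : ℚ) < A := by
      push_cast
      rw [hP]
      calc (b : ℚ) * (A * ∑ k, (1 / a k : ℚ)) = A * (b * ∑ k, (1 / a k : ℚ)) := by ring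
        _ < A * 1 := mul_lt_mul_of_pos_left h hAq
        _ = A := mul_one _
    exact_mod_cast h2
  have h2 : (b : ℚ) * ∑ k, (1 / a k : ℚ) ≤ 1 - 1 / A := by
    have h3 : ((b * P + 1 : ℕ) : ℚ) ≤ A := by exact_mod_cast h1
    push_cast at h3
    rw [hP] at h3
    rw [le_sub_iff_add_le]
    have h4 : ((b : ℚ) * ∑ k, (1 / a k : ℚ) + 1 / A) * A ≤ 1 * A := by
      rw [add_mul, one_div_mul_cancel hAq.ne', one_mul]
      calc (b : ℚ) * (∑ k, (1 / a k : ℚ)) * A + 1 = b * (A * ∑ k, (1 / a k : ℚ)) + 1 := by ring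
        _ ≤ A := h3
    exact le_of_mul_le_mul_right h4 hAq
  have h5 : (Nat.totient (r ^ e) : ℚ) / (r ^ e : ℕ) = 1 - 1 / r := by
    obtain ⟨f, rfl⟩ : ∃ f, e = f + 1 := ⟨e - 1, by omega⟩
    rw [Nat.totient_prime_pow_succ hr, Nat.cast_mul, Nat.cast_sub hr.one_le, pow_succ, Nat.cast_mul, Nat.cast_pow]
    field_simp
    push_cast
    ring
  have h6 : (1 : ℚ) / r < 1 / A := one_div_lt_one_div_of_lt hAq (by exact_mod_cast hA)
  rw [h5]
  linarith

/-- any eigenspaces have as many holomorphic forms as we need at the same time -/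
theorem meet {m : ℕ} {S : Type} [DecidableEq S] (a : S → Fin m → ℕ) (r e : ℕ) (hr : r.Prime) (he : 0 < e) (hm : 0 < m)
    (ha : ∀ s k, 1 < a s k) (hA : ∀ s, 2 * ∏ k, a s k < r) (ι : Type) [Fintype ι]
    (h : ∀ s, Fintype.card ι * ∑ k, (1 / a s k : ℚ) < 1) :
    Helper73.KT.IsMeet ι (X := S × Cr r e) (T := {t : ℕ // Nat.Coprime t r})
      (fun t x q => spec (a x.1) (r ^ e) (t.1 * x.2.1 % r ^ e) q) m :=
  Pool.Agent.Helper98.KU.meet_any hm (X := S × Cr r e) (T := {t : ℕ // Nat.Coprime t r}) (fun x => a x.1)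
    (fun x k => ha x.1 k) (Nat.pow_pos hr.pos) (fun x => x.2.1) (fun x => x.2.2.1) (fun x => by have := x.2.2.2; omega)
    (fun t => t.1) (fun k hk => ⟨⟨k, Nat.Coprime.coprime_dvd_right (dvd_pow_self r he.ne') hk⟩, rfl⟩) ι
    fun x => tot_bound (a x.1) (ha x.1) hr he (by have := hA x.1; omega) (h x.1)

end Pool.Agent.Helper61.K4
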